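import Pool.Agent.KS6_21.C.Main

/-!
# MP_1521c4_an : fully supported energy measures are generic among the harmonic functions of the
Sierpinski carpet

`Carpet` is the Sierpinski carpet, and `CanonicalForm F E μ` (with `F` the domain, a set of
continuous functions on the carpet) says that `(E, F)` is a self-similar, local, regular Dirichlet
form on `L²(μ)` invariant under the isometries of the carpet; `IsHarmonic F E h` says that `h ∈ F`
and `E h g = 0` for every `g ∈ F` vanishing on the outer boundary; `IsEnergyMeasure F E h Γ` says
that `Γ` is finite and `∫ g dΓ = 2 E(h, h g) - E(h², g)` for all `g ∈ F`.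
`FullySupported F E h`: `h` has exactly one energy measure, and it charges every nonempty open set.
`ConstOn h U`: `h` is constant on `U`.  `OuterBoundary`: the points of the carpet on the boundary
of the unit square.
-/

set_option autoImplicit false

open Set Topology MeasureTheory

namespace Pool.Agent.Results.MP_1521c4_an.GenericFullSupport

open Pool.Agent.H657R3.SC Pool.Agent.KS6_21.C

/-- For the canonical form on the Sierpinski carpet:
* there is a harmonic function whose energy measure has full support (the question);
* the energy measure of a harmonic function has full support if and only if the function is not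
  constant on any nonempty open set;
* for any two points `a ≠ b` of the outer boundary there is a function harmonic off `{a, b}` with
  the values `1` at `a` and `0` at `b`, and every function harmonic off `{a, b}` with different
  values at `a` and `b` has an energy measure of full support;
* if `h`, `p` are harmonic and are not both constant on a common nonempty open set, then
  `h + t p` has an energy measure of full support for all but countably many real `t`;
* harmonic functions with fully supported energy measure are dense in the harmonic functions, in
  the supremum norm and in energy simultaneously. -/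
theorem result (F : Set Fn) (E : Fn → Fn → ℝ) (μ : Measure Carpet)
    (hμ : IsSelfSimilarMeasure μ) (hF : CanonicalForm F E μ) :
    (∃ h, IsHarmonic F E h ∧ FullySupported F E h) ∧
    (∀ h, IsHarmonic F E h →
      (FullySupported F E h ↔ ∀ U : Set Carpet, IsOpen U → U.Nonempty → ¬ ConstOn h U)) ∧
    (∀ a ∈ OuterBoundary, ∀ b ∈ OuterBoundary, a ≠ b →
      (∃ p ∈ F, p a = 1 ∧ p b = 0 ∧ ∀ g ∈ F, g a = 0 → g b = 0 → E p g = 0) ∧
      ∀ p ∈ F, p a ≠ p b → (∀ g ∈ F, g a = 0 → g b = 0 → E p g = 0) →
        IsHarmonic F E p ∧ FullySupported F E p) ∧
    (∀ h p, IsHarmonic F E h → IsHarmonic F E p →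
      (∀ U : Set Carpet, IsOpen U → U.Nonempty → ConstOn h U → ¬ ConstOn p U) →
      {t : ℝ | ¬ FullySupported F E (fun x => h x + t * p x)}.Countable) ∧
    ∀ h, IsHarmonic F E h → ∀ ε : ℝ, 0 < ε →
      ∃ k, IsHarmonic F E k ∧ FullySupported F E k ∧ (∀ x, |k x - h x| < ε) ∧
        E (fun x => k x - h x) (fun x => k x - h x) < ε := by
  obtain ⟨F', E', hB⟩ := exists_bun hμ hF
  refine ⟨?_, fun h hh => criterion hB hh, fun a ha b hb hab => ⟨exists_two_poles hB hab,
    fun p hp hne harm => two_poles hB ha hb hp hne harm⟩,
    fun h p hh hp hc => countable_exceptions hB hh hp hc,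
    fun h hh ε hε => dense_full hB hh hε⟩
  have hne : z0 ≠ z1 := by
    intro h
    have := congrArg Subtype.val h
    exact zero_ne_one this
  obtain ⟨p, hp, p1, p0, harm⟩ := exists_two_poles hB hne
  exact ⟨p, two_poles hB (Or.inl rfl) (Or.inr (Or.inl rfl)) hp
    (by rw [p1, p0]; exact one_ne_zero) harm⟩

end Pool.Agent.Results.MP_1521c4_an.GenericFullSupport
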